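import Mathlib
import Pool.Agent.Y779.Coal2

set_option autoImplicit false

open MeasureTheory ProbabilityTheory Filter Topology
open scoped ENNReal Pointwise

/-!
# An ergodic probabilistic cellular automaton that is not exponentially ergodic

Coalescing random walks, with the next move of every particle stored in its symbol, form a
probabilistic cellular automaton on three symbols with two neighbours. It is uniformly ergodic (the
invariant measure is the point mass at the empty configuration), and the density of particles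
started from the full configuration is exactly `2 C(2t, t) / 4^t`, which is of order `1 / √t`.
-/

namespace Pool.Agent.Results.MP_37af32_pr.CoalescingWalks

open Pool.Agent.H443R3 Pool.Agent.Y779.Coal

/-- `Φ` is uniformly ergodic: it is ergodic with invariant measure `π`, and for every cylinder `C`
`sup_μ |μ Φ^t(C) - π(C)| → 0`. -/
def UniformlyErgodic {d : ℕ} {S : Type} [TopologicalSpace S] [MeasurableSpace S] (Φ : PCA d S) :
    Prop :=
  ∃ π : Measure (Config d S), ErgodicWith Φ π ∧ ∀ (A : Finset (Site d)) (u : A → S),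
    ∀ ε : ℝ, 0 < ε → ∃ T : ℕ, ∀ t : ℕ, T ≤ t → ∀ μ : Measure (Config d S), IsProbabilityMeasure μ →
      |((Φ.evolve^[t] μ) (cyl A u)).toReal - (π (cyl A u)).toReal| ≤ ε

/-- `Φ` is exponentially ergodic: it is ergodic with invariant measure `π`, and for every cylinder
`C` there are `K` and `γ < 1`, not depending on the initial measure `μ`, with
`|μ Φ^t(C) - π(C)| ≤ K γ^t` for all `t`. -/
def ExponentiallyErgodic {d : ℕ} {S : Type} [TopologicalSpace S] [MeasurableSpace S]
    (Φ : PCA d S) : Prop :=
  ∃ π : Measure (Config d S), ErgodicWith Φ π ∧ ∀ (A : Finset (Site d)) (u : A → S),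
    ∃ K γ : ℝ, 0 ≤ γ ∧ γ < 1 ∧ ∀ μ : Measure (Config d S), IsProbabilityMeasure μ → ∀ t : ℕ,
      |((Φ.evolve^[t] μ) (cyl A u)).toReal - (π (cyl A u)).toReal| ≤ K * γ ^ t

/-- The weaker variant, in which `K` and `γ` may depend on the initial measure. -/
def WeaklyExponentiallyErgodic {d : ℕ} {S : Type} [TopologicalSpace S] [MeasurableSpace S]
    (Φ : PCA d S) : Prop :=
  ∃ π : Measure (Config d S), ErgodicWith Φ π ∧ ∀ (A : Finset (Site d)) (u : A → S),
    ∀ μ : Measure (Config d S), IsProbabilityMeasure μ → ∃ K γ : ℝ, 0 ≤ γ ∧ γ < 1 ∧ ∀ t : ℕ,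
      |((Φ.evolve^[t] μ) (cyl A u)).toReal - (π (cyl A u)).toReal| ≤ K * γ ^ t

theorem measure_empty_site {d : ℕ} (e : Site d) (μ : Measure (Config d (Fin 3))) (t : ℕ)
    (i : Site d) : ((coal e).evolve^[t] μ) {x | x i = 0} = v e μ t i 1 := by
  unfold v
  have hm : MeasurableSet {x : Config d (Fin 3) | x i = 0} :=
    measurableSet_eq_fun (measurable_pi_apply i) measurable_const
  rw [← lintegral_indicator_one hm]
  refine lintegral_congr fun x => ?_
  simp [V, E, Set.indicator]

theorem measure_particle {d : ℕ} (e : Site d) (μ : Measure (Config d (Fin 3)))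
    [IsProbabilityMeasure μ] (t : ℕ) (i : Site d) :
    (((coal e).evolve^[t] μ) {x | x i ≠ 0}).toReal = 1 - (v e μ t i 1).toReal := by
  have := (coal e).isProbabilityMeasure_iterate μ t
  have hm : MeasurableSet {x : Config d (Fin 3) | x i = 0} :=
    measurableSet_eq_fun (measurable_pi_apply i) measurable_const
  have h : {x : Config d (Fin 3) | x i ≠ 0} = {x | x i = 0}ᶜ := rfl
  rw [h, prob_compl_eq_one_sub hm, measure_empty_site,
    ENNReal.toReal_sub_of_le (v_le_one e μ t i 1) ENNReal.one_ne_top, ENNReal.toReal_one]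

theorem particle_le {d : ℕ} {e : Site d} (he : e ≠ 0) (μ : Measure (Config d (Fin 3)))
    [IsProbabilityMeasure μ] (t : ℕ) (ht : 1 ≤ t) (i : Site d) :
    (((coal e).evolve^[t] μ) {x | x i ≠ 0}).toReal ≤ rho t := by
  obtain ⟨n, rfl⟩ : ∃ n, t = n + 1 := ⟨t - 1, by omega⟩
  rw [measure_particle]
  have h := le_v he μ n i 1
  have h2 : rho (n + 1) = u n 1 := by rw [u_one]; rfl
  rw [h2]
  linarith

theorem particle_full {d : ℕ} {e : Site d} (he : e ≠ 0) (t : ℕ) (ht : 1 ≤ t) (i : Site d) :
    (((coal e).evolve^[t] (Measure.dirac full)) {x | x i ≠ 0}).toReal = rho t := by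
  obtain ⟨n, rfl⟩ : ∃ n, t = n + 1 := ⟨t - 1, by omega⟩
  rw [measure_particle, v_full he]
  have h2 : rho (n + 1) = u n 1 := by rw [u_one]; rfl
  rw [h2]
  ring

/-- The difference of cylinder probabilities. -/
theorem cyl_le {d : ℕ} {e : Site d} (he : e ≠ 0) (μ : Measure (Config d (Fin 3)))
    [IsProbabilityMeasure μ] (t : ℕ) (ht : 1 ≤ t) (A : Finset (Site d)) (u : A → Fin 3) :
    |(((coal e).evolve^[t] μ) (cyl A u)).toReal -
      ((Measure.dirac (fun _ => 0) : Measure (Config d (Fin 3))) (cyl A u)).toReal| ≤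
        A.card * rho t := by
  have hp := (coal e).isProbabilityMeasure_iterate μ t
  rw [Measure.dirac_apply' _ (measurableSet_cyl A u)]
  by_cases hu : ∀ a, u a = 0
  · have h0 : (fun _ => 0 : Config d (Fin 3)) ∈ cyl A u := fun a => (hu a).symm
    rw [Set.indicator_of_mem h0]
    simp only [Pi.one_apply, ENNReal.toReal_one]
    have h1 : (((coal e).evolve^[t] μ) (cyl A u)).toReal ≤ 1 := by
      have := prob_le_one (μ := (coal e).evolve^[t] μ) (s := cyl A u)
      exact ENNReal.toReal_le_of_le_ofReal zero_le_one (by simpa using this)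
    rw [abs_sub_comm, abs_of_nonneg (by linarith)]
    have h2 : (((coal e).evolve^[t] μ) (cyl A u)ᶜ).toReal =
        1 - (((coal e).evolve^[t] μ) (cyl A u)).toReal := by
      rw [prob_compl_eq_one_sub (measurableSet_cyl A u),
        ENNReal.toReal_sub_of_le prob_le_one ENNReal.one_ne_top, ENNReal.toReal_one]
    rw [← h2]
    have h3 : (cyl A u)ᶜ ⊆ ⋃ a ∈ A, {x : Config d (Fin 3) | x a ≠ 0} := by
      intro x hx
      by_contra hc
      apply hx
      intro a
      rw [hu a]
      by_contra hxa
      apply hc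
      simp only [Set.mem_iUnion]
      exact ⟨a, a.2, hxa⟩
    have h4 : ((coal e).evolve^[t] μ) (cyl A u)ᶜ ≤
        ∑ a ∈ A, ((coal e).evolve^[t] μ) {x : Config d (Fin 3) | x a ≠ 0} :=
      (measure_mono h3).trans (measure_biUnion_finset_le _ _)
    have h5 : (((coal e).evolve^[t] μ) (cyl A u)ᶜ).toReal ≤
        ∑ a ∈ A, (((coal e).evolve^[t] μ) {x : Config d (Fin 3) | x a ≠ 0}).toReal := by
      rw [← ENNReal.toReal_sum fun a _ => measure_ne_top _ _]
      exact ENNReal.toReal_mono (ENNReal.sum_ne_top.2 fun a _ => measure_ne_top _ _) h4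
    refine h5.trans ((Finset.sum_le_card_nsmul A _ (rho t) fun a _ => ?_).trans ?_)
    · exact particle_le he μ t ht a
    · rw [nsmul_eq_mul]
  · obtain ⟨a, ha⟩ := not_forall.1 hu
    have h0 : (fun _ => 0 : Config d (Fin 3)) ∉ cyl A u := fun h => ha (h a).symm
    rw [Set.indicator_of_notMem h0]
    simp only [ENNReal.toReal_zero, sub_zero]
    rw [abs_of_nonneg ENNReal.toReal_nonneg]
    have h1 : cyl A u ⊆ {x : Config d (Fin 3) | x a ≠ 0} := by
      intro x hx hx0
      exact ha (by rw [← hx a]; exact hx0)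
    have h2 : (((coal e).evolve^[t] μ) (cyl A u)).toReal ≤
        (((coal e).evolve^[t] μ) {x : Config d (Fin 3) | x a ≠ 0}).toReal :=
      ENNReal.toReal_mono (measure_ne_top _ _) (measure_mono h1)
    have h3 := particle_le he μ t ht (a : Site d)
    have h4' : 1 ≤ A.card := Finset.card_pos.2 ⟨(a : Site d), a.2⟩
    have h4 : (1 : ℝ) ≤ A.card := by exact_mod_cast h4'
    have h5 := rho_nonneg t
    nlinarith

/-- For every dimension `d ≥ 1` there is a probabilistic cellular automaton on three symbols, with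
two neighbours, that is ergodic and uniformly ergodic (with invariant measure the point mass at the
empty configuration) but not exponentially ergodic, not even in the weaker sense in which the
constants may depend on the initial measure. More precisely every cylinder probability converges at
rate `O(1/√t)` uniformly in the initial measure, and from one initial configuration the probability
of a particle at any given site at time `t ≥ 1` equals `2 C(2t, t) / 4^t ≥ 1 / √t`. -/
theorem result (d : ℕ) (hd : 0 < d) : ∃ Φ : PCA d (Fin 3), Φ.nbhd.card = 2 ∧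
    ErgodicWith Φ (Measure.dirac fun _ => 0) ∧
    UniformlyErgodic Φ ∧ ¬ ExponentiallyErgodic Φ ∧ ¬ WeaklyExponentiallyErgodic Φ ∧
    (∀ μ : Measure (Config d (Fin 3)), IsProbabilityMeasure μ →
      ∀ (A : Finset (Site d)) (u : A → Fin 3) (t : ℕ), 1 ≤ t →
      |((Φ.evolve^[t] μ) (cyl A u)).toReal -
        ((Measure.dirac (fun _ => 0) : Measure (Config d (Fin 3))) (cyl A u)).toReal| ≤
          A.card * (2 / √(3 * t + 1))) ∧
    ∃ x₀ : Config d (Fin 3), ∀ (i : Site d) (t : ℕ), 1 ≤ t →
      ((Φ.evolve^[t] (Measure.dirac x₀)) {x | x i ≠ 0}).toReal =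
        2 * (Nat.choose (2 * t) t : ℝ) / 4 ^ t ∧
      1 / √t ≤ ((Φ.evolve^[t] (Measure.dirac x₀)) {x | x i ≠ 0}).toReal := by
  set e : Site d := Pi.single ⟨0, hd⟩ 1 with he'
  have he : e ≠ 0 := by
    intro h
    have := congrFun h ⟨0, hd⟩
    simp [he'] at this
  have hcyl : ∀ μ : Measure (Config d (Fin 3)), IsProbabilityMeasure μ →
      ∀ (A : Finset (Site d)) (u : A → Fin 3) (t : ℕ), 1 ≤ t →
      |(((coal e).evolve^[t] μ) (cyl A u)).toReal -
        ((Measure.dirac (fun _ => 0) : Measure (Config d (Fin 3))) (cyl A u)).toReal| ≤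
          A.card * rho t := fun μ hμ A u t ht => cyl_le he μ t ht A u
  have hlim : ∀ A : Finset (Site d), Tendsto (fun t => (A.card : ℝ) * rho t) atTop (𝓝 0) := by
    intro A
    have := rho_tendsto.const_mul (A.card : ℝ)
    rwa [mul_zero] at this
  have herg : ErgodicWith (coal e) (Measure.dirac fun _ => 0) := by
    apply ergodicWith_of_cylinders
    intro μ hμ A u
    have hp := fun n => (coal e).isProbabilityMeasure_iterate μ n
    rw [← ENNReal.tendsto_toReal_iff (fun n => measure_ne_top _ _) (measure_ne_top _ _)]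
    rw [tendsto_iff_dist_tendsto_zero]
    refine squeeze_zero' (Eventually.of_forall fun _ => dist_nonneg) ?_ (hlim A)
    filter_upwards [eventually_ge_atTop 1] with t ht
    rw [Real.dist_eq]
    exact hcyl μ hμ A u t ht
  have hfull : ∀ (i : Site d) (t : ℕ), 1 ≤ t →
      (((coal e).evolve^[t] (Measure.dirac full)) {x | x i ≠ 0}).toReal = rho t :=
    fun i t ht => particle_full he t ht i
  have hnot : ¬ WeaklyExponentiallyErgodic (coal e) := by
    rintro ⟨π, hπ, hexp⟩
    have hπ' : (Measure.dirac fun _ => 0 : Measure (Config d (Fin 3))) = π :=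
      hπ.unique _ herg.prob herg.invariant
    subst hπ'
    set i : Site d := 0 with hi
    obtain ⟨K, γ, hγ0, hγ1, hK⟩ := hexp {i} (fun _ => 0) (Measure.dirac full) inferInstance
    -- the cylinder `x i = 0`
    have hc : cyl ({i} : Finset (Site d)) (fun _ => (0 : Fin 3)) =
        {x : Config d (Fin 3) | x i ≠ 0}ᶜ := by
      ext x
      simp [cyl]
    have hms : MeasurableSet {x : Config d (Fin 3) | x i ≠ 0} :=
      (measurableSet_eq_fun (measurable_pi_apply i) measurable_const).compl
    have h1 : ∀ t : ℕ, 1 ≤ t → rho t ≤ K * γ ^ t := by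
      intro t ht
      have hp := (coal e).isProbabilityMeasure_iterate (Measure.dirac full) t
      have h2 := hK t
      rw [hc, prob_compl_eq_one_sub hms,
        ENNReal.toReal_sub_of_le prob_le_one ENNReal.one_ne_top, ENNReal.toReal_one,
        hfull i t ht, Measure.dirac_apply' _ hms.compl] at h2
      have h3 : (fun _ => 0 : Config d (Fin 3)) ∈ {x : Config d (Fin 3) | x i ≠ 0}ᶜ := by simp
      rw [Set.indicator_of_mem h3] at h2
      simp only [Pi.one_apply, ENNReal.toReal_one] at h2
      have h4 : |1 - rho t - 1| = rho t := by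
        have : (1 : ℝ) - rho t - 1 = - rho t := by ring
        rw [this, abs_neg, abs_of_nonneg (rho_nonneg t)]
      rwa [h4] at h2
    -- `1 ≤ K t γ^t` for all `t ≥ 1`, contradiction
    have h5 : Tendsto (fun t : ℕ => K * ((t : ℝ) * γ ^ t)) atTop (𝓝 0) := by
      have := (tendsto_self_mul_const_pow_of_lt_one hγ0 hγ1).const_mul K
      rwa [mul_zero] at this
    have h6 : ∀ t : ℕ, 1 ≤ t → 1 ≤ K * ((t : ℝ) * γ ^ t) := by
      intro t ht
      have ht0 : (1 : ℝ) ≤ t := by exact_mod_cast ht
      have h7 : 1 / (t : ℝ) ≤ 1 / √t := by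
        apply one_div_le_one_div_of_le (Real.sqrt_pos.2 (by linarith))
        rw [Real.sqrt_le_left (by linarith)]
        nlinarith
      have h8 := (h7.trans (le_rho t ht)).trans (h1 t ht)
      rw [div_le_iff₀ (by linarith)] at h8
      linarith
    have h9 := (h5.eventually (gt_mem_nhds one_pos)).and (eventually_ge_atTop 1)
    obtain ⟨t, ht1, ht2⟩ := h9.exists
    exact absurd (h6 t ht2) (not_le.2 ht1)
  refine ⟨coal e, ?_, herg, ⟨_, herg, ?_⟩, ?_, hnot, ?_, full, ?_⟩
  · have : (0 : Site d) ≠ -e := fun h => he (neg_eq_zero.1 h.symm)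
    simp [coal, Finset.card_pair this]
  · intro A u ε hε
    obtain ⟨T, hT⟩ := ((hlim A).eventually (gt_mem_nhds hε)).exists_forall_of_atTop
    refine ⟨max T 1, fun t ht μ hμ => (hcyl μ hμ A u t ((le_max_right _ _).trans ht)).trans
      (hT t ((le_max_left _ _).trans ht)).le⟩
  · rintro ⟨π, hπ, hexp⟩
    exact hnot ⟨π, hπ, fun A u μ hμ => by
      obtain ⟨K, γ, h0, h1, hK⟩ := hexp A u
      exact ⟨K, γ, h0, h1, hK μ hμ⟩⟩
  · intro μ hμ A u t ht
    exact (hcyl μ hμ A u t ht).trans
      (mul_le_mul_of_nonneg_left (rho_le t) (Nat.cast_nonneg _))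
  · intro i t ht
    refine ⟨?_, ?_⟩
    · rw [hfull i t ht]; rfl
    · rw [hfull i t ht]; exact le_rho t ht

end Pool.Agent.Results.MP_37af32_pr.CoalescingWalks
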